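import Pool.Agent.H3.PS.Stm

set_option autoImplicit false

/-! Parts LA and PC: least action principle; percolation = one toppling of every site. -/

namespace Pool.Agent.H3.PS

open Pool.Agent.Helper581.Sand

theorem od_succ {d : ℕ} (a : (Fin d → ℤ) → ℤ) (t : ℕ) (y : Fin d → ℤ) :
    od a (t + 1) y = od a t y + tp (run a t) y := by
  unfold od
  rw [Finset.sum_range_succ]

theorem od_mono {d : ℕ} (a : (Fin d → ℤ) → ℤ) (y : Fin d → ℤ) : Monotone (fun t => od a t y) := by
  apply monotone_nat_of_le_succ
  intro t
  show od a t y ≤ od a (t + 1) y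
  rw [od_succ]
  have := tp_nonneg (run a t) y
  omega

/-- stabilising functions dominate the odometer -/
theorem od_le_of_stab {d : ℕ} (a w : (Fin d → ℤ) → ℤ) (hw : ∀ y, 0 ≤ w y)
    (h : ∀ y, a y + lap w y < 2 * (d : ℤ)) : ∀ (t : ℕ) (y : Fin d → ℤ), od a t y ≤ w y := by
  intro t
  induction t with
  | zero => intro y; simpa [od] using hw y
  | succ t ih =>
    intro y
    rw [od_succ]
    by_cases hy : 2 * (d : ℤ) ≤ run a t y
    · have h1 : tp (run a t) y ≤ 1 := tp_le_one _ _
      have h2 : od a t y ≠ w y := by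
        intro he
        have h3 := run_eq a t y
        have h4 : lap (od a t) y ≤ lap w y := by
          unfold lap
          rw [he]
          have : ∑ i : Fin d, (od a t (y + Pi.single i 1) + od a t (y - Pi.single i 1)) ≤
              ∑ i : Fin d, (w (y + Pi.single i 1) + w (y - Pi.single i 1)) :=
            Finset.sum_le_sum fun i _ => add_le_add (ih _) (ih _)
          omega
        have h5 := h y
        omega
      have h6 := ih y
      have h7 : od a t y < w y := lt_of_le_of_ne h6 h2
      omega
    · have h1 : tp (run a t) y = 0 := by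
        unfold tp; rw [if_neg hy]
      rw [h1, add_zero]
      exact ih y

theorem exists_limit {d : ℕ} (a : (Fin d → ℤ) → ℤ) (h : ¬ Percolates a) :
    ∃ u : (Fin d → ℤ) → ℤ, (∀ y, 0 ≤ u y) ∧ (∀ t y, od a t y ≤ u y) ∧
      (∀ y, ∃ T, od a T y = u y) ∧ ∀ y, a y + lap u y < 2 * (d : ℤ) := by
  have hf := fun x => fin_all h x
  choose T hT using hf
  have hconst : ∀ y t, T y ≤ t → od a t y = od a (T y) y := by
    intro y t ht
    induction t, ht using Nat.le_induction with
    | base => rfl
    | succ t ht ih =>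
      rw [od_succ, ih]
      have : tp (run a t) y = 0 := by
        unfold tp
        rw [if_neg (by have := hT y t ht; omega)]
      rw [this, add_zero]
  refine ⟨fun y => od a (T y) y, fun y => od_nonneg _ _ _, ?_, fun y => ⟨T y, rfl⟩, ?_⟩
  · intro t y
    rcases le_total t (T y) with ht | ht
    · exact od_mono a y ht
    · exact (hconst y t ht).le
  · intro x
    obtain ⟨t, ht⟩ : ∃ t, T x ≤ t ∧ ∀ i : Fin d, T (x + Pi.single i 1) ≤ t ∧
        T (x - Pi.single i 1) ≤ t := by
      refine ⟨T x + ∑ i : Fin d, (T (x + Pi.single i 1) + T (x - Pi.single i 1)), by omega, ?_⟩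
      intro i
      have := Finset.single_le_sum (f := fun i => T (x + Pi.single i 1) + T (x - Pi.single i 1))
        (fun _ _ => Nat.zero_le _) (Finset.mem_univ i)
      omega
    have h1 := hT x t ht.1
    rw [run_eq] at h1
    have h2 : lap (fun y => od a (T y) y) x = lap (od a t) x := by
      unfold lap
      rw [hconst x t ht.1]
      congr 1
      refine Finset.sum_congr rfl fun i _ => ?_
      rw [hconst _ t (ht.2 i).1, hconst _ t (ht.2 i).2]
    rw [h2]
    exact h1

theorem topples_of_od {d : ℕ} (a : (Fin d → ℤ) → ℤ) (x : Fin d → ℤ) (t : ℕ)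
    (h : 1 ≤ od a t x) : Topples a x := by
  by_contra hcon
  have : od a t x = 0 := by
    unfold od
    apply Finset.sum_eq_zero
    intro s _
    unfold tp
    rw [if_neg]
    intro hs
    exact hcon ⟨s, hs⟩
  omega

theorem od_of_topples {d : ℕ} (a : (Fin d → ℤ) → ℤ) (x : Fin d → ℤ) (h : Topples a x) :
    ∃ t, 1 ≤ od a t x := by
  obtain ⟨t, ht⟩ := h
  refine ⟨t + 1, ?_⟩
  rw [od_succ]
  have h1 : tp (run a t) x = 1 := by
    unfold tp; rw [if_pos ht]
  have h2 := od_nonneg a t x
  omega

theorem topples_of_percolates {d : ℕ} (a : (Fin d → ℤ) → ℤ) (h : Percolates a)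
    (x : Fin d → ℤ) : Topples a x := by
  obtain ⟨t, _, ht⟩ := h x 0
  exact ⟨t, ht⟩

theorem LA : S_LA := by
  intro d _ a k hk x hkx htop
  by_cases hp : Percolates a
  · exact topples_of_percolates a hp x
  · obtain ⟨u, hu0, _, hu2, hu3⟩ := exists_limit a hp
    have hw := od_le_of_stab (fun y => a y - lap k y) (fun y => u y + k y)
      (fun y => add_nonneg (hu0 y) (hk y)) (by
        intro y
        rw [lap_add]
        have := hu3 y
        show a y - lap k y + (lap u y + lap k y) < _
        omega)
    obtain ⟨t, ht⟩ := od_of_topples _ x htop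
    have h1 := hw t x
    simp only [hkx, add_zero] at h1
    obtain ⟨T, hT⟩ := hu2 x
    exact topples_of_od a x T (by omega)

theorem PC : S_PC := by
  intro d _ a
  refine ⟨fun h x => topples_of_percolates a h x, fun h => ?_⟩
  by_contra hp
  obtain ⟨u, hu0, hu1, hu2, hu3⟩ := exists_limit a hp
  have hu4 : ∀ y, 1 ≤ u y := by
    intro y
    obtain ⟨t, ht⟩ := od_of_topples a y (h y)
    exact ht.trans (hu1 t y)
  have hl : ∀ y, lap (fun _ : Fin d → ℤ => (1 : ℤ)) y = 0 := by
    intro y
    unfold lap
    rw [Finset.sum_const, Finset.card_univ, Fintype.card_fin, nsmul_eq_mul]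
    ring
  have hw := od_le_of_stab a (fun y => u y - 1) (fun y => by have := hu4 y; omega) (by
      intro y
      have h1 : lap (fun y => u y - 1) y = lap u y - lap (fun _ => (1 : ℤ)) y :=
        lap_sub u (fun _ => 1) y
      rw [h1, hl y]
      have := hu3 y
      omega)
  obtain ⟨T, hT⟩ := hu2 0
  have h1 := hw T 0
  omega

end Pool.Agent.H3.PS
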